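import Pool.Agent.H67.SC.CVX

/-!
# Row CL2 of project SC
-/

namespace Pool.SC

open Finset

theorem m467 (hM : S_M4) (hC : S_CUT) (hF : S_FLT) {p a b : ℝ} (hp0 : 0 < p) (hp1 : p < 1)
    (ha : 0 < a) (hab : a < b) (n : ℕ) (hn : 1 ≤ n) (z1 z2 : ℤ) (hz : z1 < z2) (F : Finset Ed) :
    ex p F (fun T => (flow a b (sq n n) z1 z2 T - ex p F (flow a b (sq n n) z1 z2)) ^ 4)
      ≤ 10 * ((b - a) ^ 2 * (b / a) / (1 - p) + (b - a) ^ 2) ^ 2 * (n : ℝ) ^ 4 := by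
  obtain ⟨S0, hS0, hc0⟩ := hF (sq n n) z1 z2 hz
  have hcut := hC a b (sq n n) z1 z2 (fun _ => True) ((n : ℝ) * n) ha hab hz
    ⟨S0, hS0, trivial, by simpa [sq] using hc0⟩
  obtain ⟨-, -, -, -, h5, -, h7⟩ := hcut
  have hb0 : 0 < b := ha.trans hab
  have hba : 0 < b - a := sub_pos.2 hab
  have h1p : 0 < 1 - p := sub_pos.2 hp1
  have hK : (0 : ℝ) ≤ (b - a) ^ 2 * (b / a * ((n : ℝ) * n)) := by positivity
  have h4 := hM Ed p hp0 hp1 F (flow a b (sq n n) z1 z2) ((b - a) ^ 2 * (b / a * ((n : ℝ) * n)))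
    (b - a) hK hba.le (fun s _ => h7 F s) (fun s _ e _ => by
      have := h5 e s
      rw [abs_le]
      constructor
      · exact le_trans (by linarith) this.1
      · exact this.2)
  refine h4.trans ?_
  have hn1 : (1 : ℝ) ≤ n := by exact_mod_cast hn
  have hn2 : (1 : ℝ) ≤ (n : ℝ) ^ 2 := one_le_pow₀ hn1
  have h6 : (b - a) ^ 2 * (b / a * ((n : ℝ) * n)) / (1 - p) + (b - a) ^ 2
      ≤ ((b - a) ^ 2 * (b / a) / (1 - p) + (b - a) ^ 2) * (n : ℝ) ^ 2 := by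
    have e : (b - a) ^ 2 * (b / a * ((n : ℝ) * n)) / (1 - p)
        = (b - a) ^ 2 * (b / a) / (1 - p) * (n : ℝ) ^ 2 := by ring
    rw [e, add_mul]
    have : (b - a) ^ 2 ≤ (b - a) ^ 2 * (n : ℝ) ^ 2 := le_mul_of_one_le_right (by positivity) hn2
    linarith
  have h0 : 0 ≤ (b - a) ^ 2 * (b / a * ((n : ℝ) * n)) / (1 - p) + (b - a) ^ 2 := by positivity
  have h8 := pow_le_pow_left₀ h0 h6 2
  calc 10 * ((b - a) ^ 2 * (b / a * ((n : ℝ) * n)) / (1 - p) + (b - a) ^ 2) ^ 2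
      ≤ 10 * (((b - a) ^ 2 * (b / a) / (1 - p) + (b - a) ^ 2) * (n : ℝ) ^ 2) ^ 2 := by linarith
    _ = _ := by ring

theorem cl2_thm (hHO : S_HO) (hM : S_M4) (hC : S_CUT) (hF : S_FLT) (hI : S_INV) : S_CL2 := by
  intro p a b hp0 hp1 ha hab
  have hb0 : 0 < b := ha.trans hab
  have hba : 0 < b - a := sub_pos.2 hab
  have h1p : 0 < 1 - p := sub_pos.2 hp1
  refine ⟨160 * ((b - a) ^ 2 * (b / a) / (1 - p) + (b - a) ^ 2) ^ 2, by positivity, ?_⟩
  intro n H z hn hH F hFs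
  have e1 : ex p F (flow a b (sq n n) 0 (H : ℤ)) = ph p a b n n H := by
    have := hI p a b (sq n n) 0 H F hp0 hp1 ha hab hH
      ((eds_mono67 le_rfl (by omega)).trans hFs)
    simpa [sq] using this
  have e2 : ex p F (flow a b (sq n n) (z : ℤ) ((H : ℤ) + z)) = ph p a b n n H := by
    have h3 : (z : ℤ) + (H : ℤ) = (H : ℤ) + z := add_comm _ _
    have := hI p a b (sq n n) z H F hp0 hp1 ha hab hH
      ((eds_mono67 (by omega) (by omega)).trans hFs)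
    rw [h3] at this
    simpa [sq] using this
  have m1 := m467 hM hC hF hp0 hp1 ha hab n hn 0 (H : ℤ) (by omega) F
  have m2 := m467 hM hC hF hp0 hp1 ha hab n hn (z : ℤ) ((H : ℤ) + z) (by omega) F
  rw [e1] at m1
  rw [e2] at m2
  set m := ph p a b n n H with hm
  set C1 := ((b - a) ^ 2 * (b / a) / (1 - p) + (b - a) ^ 2) ^ 2 with hC1
  have h4 : ex p F (fun T => (flow a b (sq n n) 0 (H : ℤ) T
      - flow a b (sq n n) (z : ℤ) ((H : ℤ) + z) T) ^ 4) ≤ 160 * C1 * (n : ℝ) ^ 4 := by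
    have h5 : ex p F (fun T => (flow a b (sq n n) 0 (H : ℤ) T
        - flow a b (sq n n) (z : ℤ) ((H : ℤ) + z) T) ^ 4)
        ≤ ex p F (fun T => 8 * (flow a b (sq n n) 0 (H : ℤ) T - m) ^ 4
          + 8 * (flow a b (sq n n) (z : ℤ) ((H : ℤ) + z) T - m) ^ 4) := by
      refine ex_mono hp0.le hp1.le fun T _ => ?_
      set x := flow a b (sq n n) 0 (H : ℤ) T - m with hx
      set y := flow a b (sq n n) (z : ℤ) ((H : ℤ) + z) T - m with hy
      have e : flow a b (sq n n) 0 (H : ℤ) T - flow a b (sq n n) (z : ℤ) ((H : ℤ) + z) T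
          = x - y := by rw [hx, hy]; ring
      rw [e]
      have q1 : (x - y) ^ 2 ≤ 2 * (x ^ 2 + y ^ 2) := by nlinarith [sq_nonneg (x + y)]
      have q2 : (x - y) ^ 4 ≤ (2 * (x ^ 2 + y ^ 2)) ^ 2 := by
        have := pow_le_pow_left₀ (sq_nonneg (x - y)) q1 2
        calc (x - y) ^ 4 = ((x - y) ^ 2) ^ 2 := by ring
          _ ≤ _ := this
      have q3 : (2 * (x ^ 2 + y ^ 2)) ^ 2 ≤ 8 * x ^ 4 + 8 * y ^ 4 := by
        nlinarith [sq_nonneg (x ^ 2 - y ^ 2)]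
      exact q2.trans q3
    rw [ex_add, ex_mul_left, ex_mul_left] at h5
    linarith
  have hho := hHO Ed p hp0 hp1 F (fun T => flow a b (sq n n) 0 (H : ℤ) T
      - flow a b (sq n n) (z : ℤ) ((H : ℤ) + z) T)
  refine hho.trans ?_
  rw [mul_comm (160 * C1 * (n : ℝ) ^ 4)]
  exact mul_le_mul_of_nonneg_left h4 (sq_nonneg _)

end Pool.SC
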