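import Pool.Agent.H67.SC.CVX

/-!
# Row CLO of project SC
-/

namespace Pool.SC

open Finset

section
variable {f : ℕ → ℝ}

theorem cv67A (hc : ∀ h : ℕ, 1 ≤ h → 2 * f (h + 1) ≤ f h + f (h + 2)) (i : ℕ) (hi : 1 ≤ i)
    (j : ℕ) : f (i + j) - f (i + j + 1) ≤ f i - f (i + 1) := by
  induction j with
  | zero => simp
  | succ j ih =>
    have h := hc (i + j) (by omega)
    have e1 : i + (j + 1) = i + j + 1 := by ring
    have e2 : i + j + 1 + 1 = i + j + 2 := by ring
    rw [e1, e2]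
    linarith

theorem cv67B (hc : ∀ h : ℕ, 1 ≤ h → 2 * f (h + 1) ≤ f h + f (h + 2)) (i : ℕ) (hi : 1 ≤ i)
    (k : ℕ) : f i - f (i + k) ≤ k * (f i - f (i + 1)) := by
  induction k with
  | zero => simp
  | succ k ih =>
    have h := cv67A hc i hi k
    have e1 : i + (k + 1) = i + k + 1 := by ring
    rw [e1]
    push_cast
    linarith

theorem cv67C (hc : ∀ h : ℕ, 1 ≤ h → 2 * f (h + 1) ≤ f h + f (h + 2)) (i : ℕ) (hi : 1 ≤ i)
    (k : ℕ) : k * (f (i + k) - f (i + k + 1)) ≤ f i - f (i + k) := by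
  induction k with
  | zero => simp
  | succ k ih =>
    have h := cv67A hc (i + k) (by omega) 1
    have e1 : i + (k + 1) = i + k + 1 := by ring
    rw [e1]
    push_cast
    have h0 : (0 : ℝ) ≤ (k : ℝ) + 1 := by positivity
    have h2 := mul_le_mul_of_nonneg_left h h0
    linarith

theorem cv67M (hm : ∀ h : ℕ, 1 ≤ h → f (h + 1) ≤ f h) (i : ℕ) (hi : 1 ≤ i) (k : ℕ) :
    f (i + k) ≤ f i := by
  induction k with
  | zero => simp
  | succ k ih => exact (hm (i + k) (by omega)).trans ih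

theorem cv67 (hc : ∀ h : ℕ, 1 ≤ h → 2 * f (h + 1) ≤ f h + f (h + 2))
    (hm : ∀ h : ℕ, 1 ≤ h → f (h + 1) ≤ f h) (H z : ℕ) (hz : 1 ≤ z) (hH : 8 * z ≤ H) :
    f (H - z) - f (H + z) ≤ 8 * z / H * (f (H / 2) - f H) := by
  have hHp : (0 : ℝ) < H := by
    have : 0 < H := by omega
    exact_mod_cast this
  obtain ⟨k, hk⟩ : ∃ k, H - z = H / 2 + k := ⟨H - z - H / 2, by omega⟩
  have hk8 : 3 * H ≤ 8 * k := by omega
  have hC := cv67C hc (H / 2) (by omega) k
  rw [← hk] at hC
  have hB := cv67B hc (H - z) (by omega) (2 * z)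
  have e1 : H - z + 2 * z = H + z := by omega
  rw [e1] at hB
  have hM := cv67M hm (H - z) (by omega) z
  have e2 : H - z + z = H := by omega
  rw [e2] at hM
  have hd := hm (H - z) (by omega)
  set d := f (H - z) - f (H - z + 1) with hdd
  have hd0 : 0 ≤ d := by rw [hdd]; linarith
  have h1 : (3 * (H : ℝ) / 8) * d ≤ f (H / 2) - f H := by
    have h2 : (3 * (H : ℝ) / 8) ≤ k := by
      have : (3 * H : ℝ) ≤ 8 * k := by exact_mod_cast hk8
      linarith
    have h3 := mul_le_mul_of_nonneg_right h2 hd0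
    linarith
  have h4 : f (H - z) - f (H + z) ≤ 3 * z * d := by
    push_cast at hB
    have : (0 : ℝ) ≤ z * d := by positivity
    linarith
  refine h4.trans ?_
  have h5 : (8 * (z : ℝ) / H) * ((3 * (H : ℝ) / 8) * d) = 3 * z * d := by
    field_simp
  rw [← h5]
  exact mul_le_mul_of_nonneg_left h1 (by positivity)

end

theorem clo_thm (hM : S_MON) (hI : S_INV) (hV : S_CVX) : S_CLO := by
  intro p a b n H z hp0 hp1 ha hab hn hH hz F hF
  rcases Nat.eq_zero_or_pos z with h0 | hzp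
  · subst h0
    simp [ex_const]
  have key : ex p F (fun T => |flow a b (sq n n) 0 (H : ℤ) T
        - flow a b (sq n n) (z : ℤ) ((H : ℤ) + z) T|)
      ≤ ex p F (fun T => flow a b (sq n n) (z : ℤ) (H : ℤ) T
        - flow a b (sq n n) 0 ((H : ℤ) + z) T) := by
    refine ex_mono hp0.le hp1.le fun T _ => ?_
    have m1 := hM a b (sq n n) 0 0 (H : ℤ) ((H : ℤ) + z) T ha hab le_rfl (by omega) (by omega)
    have m2 := hM a b (sq n n) 0 z ((H : ℤ) + z) ((H : ℤ) + z) T ha hab (by omega) (by omega)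
      le_rfl
    have m3 := hM a b (sq n n) 0 z (H : ℤ) (H : ℤ) T ha hab (by omega) (by omega) le_rfl
    have m4 := hM a b (sq n n) z z (H : ℤ) ((H : ℤ) + z) T ha hab le_rfl (by omega) (by omega)
    rw [abs_le]
    constructor <;> linarith
  refine key.trans ?_
  rw [ex_sub]
  have e1 : ex p F (flow a b (sq n n) (z : ℤ) (H : ℤ)) = ph p a b n n (H - z) := by
    have hcast : ((H - z : ℕ) : ℤ) = (H : ℤ) - z := by omega
    have := hI p a b (sq n n) z (H - z) F hp0 hp1 ha hab (by omega)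
      ((eds_mono67 (by omega) (by omega)).trans hF)
    rw [hcast] at this
    simpa [sq] using this
  have e2 : ex p F (flow a b (sq n n) 0 ((H : ℤ) + z)) = ph p a b n n (H + z) := by
    have := hI p a b (sq n n) 0 (H + z) F hp0 hp1 ha hab (by omega)
      ((eds_mono67 le_rfl (by push_cast; omega)).trans hF)
    simpa [sq] using this
  rw [e1, e2]
  obtain ⟨c1, c2, -⟩ := hV p a b n n hp0 hp1 ha hab
  exact cv67 (f := fun h => ph p a b n n h) c1 c2 H z hzp hz

end Pool.SC
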