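import Pool.Agent.H61.SC.Stmts
import Pool.Agent.H61.SC.Ex

/-!
# Row CVX of project SC
-/

namespace Pool.SC

open Finset

theorem box_mono67 {R : Rect} {z1 z2 y1 y2 : ℤ} (h1 : y1 ≤ z1) (h2 : z2 ≤ y2) :
    box R z1 z2 ⊆ box R y1 y2 := by
  intro v hv
  unfold box at hv ⊢
  simp only [Finset.mem_product, Finset.mem_Ico, Finset.mem_Icc] at hv ⊢
  obtain ⟨a, b, c, d⟩ := hv
  exact ⟨a, b, by omega, by omega⟩

theorem eds_mono67 {R : Rect} {z1 z2 y1 y2 : ℤ} (h1 : y1 ≤ z1) (h2 : z2 ≤ y2) :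
    eds R z1 z2 ⊆ eds R y1 y2 := by
  intro e he
  unfold eds at he ⊢
  simp only [Finset.mem_filter, Finset.mem_product, Finset.mem_univ, true_and] at he ⊢
  exact ⟨box_mono67 h1 h2 he.1, box_mono67 h1 h2 he.2⟩

theorem cvx_thm (hS : S_SUB) (hM : S_MON) (hI : S_INV) (hC : S_CUT) (hF : S_FLT) : S_CVX := by
  intro p a b w l hp0 hp1 ha hab
  refine ⟨fun h hh => ?_, fun h hh => ?_, fun h hh => ?_⟩
  · set F := eds (sq w l) 0 ((h : ℤ) + 2) with hFdef
    have e1 : ex p F (flow a b (sq w l) 0 ((h : ℤ) + 1)) = ph p a b w l (h + 1) := by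
      have := hI p a b (sq w l) 0 (h + 1) F hp0 hp1 ha hab (by omega)
        (by rw [hFdef]; exact eds_mono67 le_rfl (by push_cast; omega))
      simpa [sq] using this
    have e2 : ex p F (flow a b (sq w l) 1 ((h : ℤ) + 2)) = ph p a b w l (h + 1) := by
      have := hI p a b (sq w l) 1 (h + 1) F hp0 hp1 ha hab (by omega)
        (by rw [hFdef]; exact eds_mono67 (by omega) (by push_cast; omega))
      have h3 : (1 : ℤ) + ((h + 1 : ℕ) : ℤ) = (h : ℤ) + 2 := by push_cast; ring
      rw [h3] at this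
      simpa [sq] using this
    have e3 : ex p F (flow a b (sq w l) 1 ((h : ℤ) + 1)) = ph p a b w l h := by
      have := hI p a b (sq w l) 1 h F hp0 hp1 ha hab hh
        (by rw [hFdef]; exact eds_mono67 (by omega) (by omega))
      have h3 : (1 : ℤ) + (h : ℤ) = (h : ℤ) + 1 := by ring
      rw [h3] at this
      simpa [sq] using this
    have e4 : ex p F (flow a b (sq w l) 0 ((h : ℤ) + 2)) = ph p a b w l (h + 2) := by
      have := hI p a b (sq w l) 0 (h + 2) F hp0 hp1 ha hab (by omega)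
        (by rw [hFdef]; exact eds_mono67 le_rfl (by push_cast; omega))
      simpa [sq] using this
    have key : ex p F (fun T => flow a b (sq w l) 0 ((h : ℤ) + 1) T
          + flow a b (sq w l) 1 ((h : ℤ) + 2) T)
        ≤ ex p F (fun T => flow a b (sq w l) 1 ((h : ℤ) + 1) T
          + flow a b (sq w l) 0 ((h : ℤ) + 2) T) := by
      refine ex_mono hp0.le hp1.le fun T _ => ?_
      exact hS a b (sq w l) 0 1 ((h : ℤ) + 1) ((h : ℤ) + 2) T ha hab (by omega) (by omega) (by omega)
    rw [ex_add, ex_add, e1, e2, e3, e4] at key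
    linarith
  · set F := eds (sq w l) 0 ((h : ℤ) + 1) with hFdef
    have e1 : ex p F (flow a b (sq w l) 0 ((h : ℤ) + 1)) = ph p a b w l (h + 1) := by
      have := hI p a b (sq w l) 0 (h + 1) F hp0 hp1 ha hab (by omega)
        (by rw [hFdef]; exact eds_mono67 le_rfl (by push_cast; omega))
      simpa [sq] using this
    have e2 : ex p F (flow a b (sq w l) 0 (h : ℤ)) = ph p a b w l h := by
      have := hI p a b (sq w l) 0 h F hp0 hp1 ha hab hh
        (by rw [hFdef]; exact eds_mono67 le_rfl (by omega))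
      simpa [sq] using this
    rw [← e1, ← e2]
    refine ex_mono hp0.le hp1.le fun T _ => ?_
    exact hM a b (sq w l) 0 0 (h : ℤ) ((h : ℤ) + 1) T ha hab le_rfl (by omega) (by omega)
  · obtain ⟨S0, hS0, hc0⟩ := hF (sq w l) 0 (h : ℤ) (by omega)
    have hcut := hC a b (sq w l) 0 (h : ℤ) (fun _ => True) ((w : ℝ) * l) ha hab (by omega)
      ⟨S0, hS0, trivial, by simpa [sq] using hc0⟩
    have hb := hcut.2.2.1
    unfold ph
    constructor
    · exact ex_nonneg hp0.le hp1.le fun T _ => (hb T).1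
    · exact ex_le_const hp0.le hp1.le fun T _ => (hb T).2

end Pool.SC
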