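import Pool.Agent.H61.SC.Stmts

/-!
# Row SEL of project SC
-/

namespace Pool.SC

open Finset

theorem pig67 (C : Finset Ed) (s : ℕ) (hs : 1 ≤ s) (φ : ℕ → Ed → Prop)
    [∀ i, DecidablePred (φ i)]
    (hd : ∀ i j : ℕ, s ≤ i → i < 2 * s → s ≤ j → j < 2 * s → ∀ e, φ i e → φ j e → i = j) :
    ∃ i : ℕ, s ≤ i ∧ i < 2 * s ∧ (C.filter (φ i)).card * s ≤ C.card := by
  have hne : (Finset.Ico s (2 * s)).Nonempty := ⟨s, by simp; omega⟩
  have hsum : ∑ i ∈ Finset.Ico s (2 * s), (C.filter (φ i)).card ≤ C.card := by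
    rw [← Finset.card_biUnion]
    · refine Finset.card_le_card ?_
      intro e he
      rw [Finset.mem_biUnion] at he
      obtain ⟨i, -, h⟩ := he
      exact (Finset.mem_filter.1 h).1
    · intro i hi j hj hij
      show Disjoint (C.filter (φ i)) (C.filter (φ j))
      rw [Finset.disjoint_left]
      intro e h1 h2
      have hi' := Finset.mem_Ico.1 hi
      have hj' := Finset.mem_Ico.1 hj
      exact hij (hd i j hi'.1 hi'.2 hj'.1 hj'.2 e (Finset.mem_filter.1 h1).2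
        (Finset.mem_filter.1 h2).2)
  obtain ⟨i, hi, h⟩ := Finset.exists_le_of_sum_le (f := fun i => (C.filter (φ i)).card * s)
    (g := fun _ => C.card) hne (by
      rw [← Finset.sum_mul, Finset.sum_const, Nat.card_Ico, smul_eq_mul]
      have : 2 * s - s = s := by omega
      rw [this, mul_comm s]
      exact Nat.mul_le_mul_right _ hsum)
  have hi' := Finset.mem_Ico.1 hi
  exact ⟨i, hi'.1, hi'.2, h⟩

theorem sel_thm : S_SEL := by
  classical
  intro w l s H S hs hw hl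
  set C := cuts (sq w l) 0 (H : ℤ) S with hC
  obtain ⟨i, hi1, hi2, hi⟩ := pig67 C s hs
    (fun i e => (hd e).1 = (i : ℤ) ∧ (tl e).1 = (i : ℤ)) (by
      intro i j _ _ _ _ e h1 h2
      have := h1.1.symm.trans h2.1
      exact_mod_cast this)
  obtain ⟨u, hu1, hu2, hu⟩ := pig67 C s hs
    (fun i e => (hd e).1 = (w : ℤ) - i - 1 ∧ (tl e).1 = (w : ℤ) - i - 1) (by
      intro i j _ _ _ _ e h1 h2
      have := h1.1.symm.trans h2.1
      omega)
  obtain ⟨j, hj1, hj2, hj⟩ := pig67 C s hs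
    (fun i e => (hd e).2.1 = (i : ℤ) ∧ (tl e).2.1 = (i : ℤ)) (by
      intro i j _ _ _ _ e h1 h2
      have := h1.1.symm.trans h2.1
      exact_mod_cast this)
  obtain ⟨v, hv1, hv2, hv⟩ := pig67 C s hs
    (fun i e => (hd e).2.1 = (l : ℤ) - i - 1 ∧ (tl e).2.1 = (l : ℤ) - i - 1) (by
      intro i j _ _ _ _ e h1 h2
      have := h1.1.symm.trans h2.1
      omega)
  refine ⟨i, u, j, v, hi1, hi2, hu1, hu2, hj1, hj2, hv1, hv2, ?_⟩
  have hsub : bcuts ⟨i, j, w - i - u, l - j - v⟩ 0 (H : ℤ) S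
      ⊆ (C.filter (fun e => (hd e).1 = (i : ℤ) ∧ (tl e).1 = (i : ℤ)))
        ∪ (C.filter (fun e => (hd e).1 = (w : ℤ) - u - 1 ∧ (tl e).1 = (w : ℤ) - u - 1))
        ∪ (C.filter (fun e => (hd e).2.1 = (j : ℤ) ∧ (tl e).2.1 = (j : ℤ)))
        ∪ (C.filter (fun e => (hd e).2.1 = (l : ℤ) - v - 1 ∧ (tl e).2.1 = (l : ℤ) - v - 1)) := by
    intro e he
    unfold bcuts at he
    rw [Finset.mem_filter] at he
    obtain ⟨he1, he2⟩ := he
    have heC : e ∈ C := by
      rw [hC]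
      unfold cuts at he1 ⊢
      rw [Finset.mem_filter] at he1 ⊢
      refine ⟨?_, he1.2⟩
      have h3 := he1.1
      unfold eds at h3 ⊢
      simp only [Finset.mem_filter, Finset.mem_product, Finset.mem_univ, true_and] at h3 ⊢
      unfold box at h3 ⊢
      simp only [Finset.mem_product, Finset.mem_Ico, Finset.mem_Icc, sq] at h3 ⊢
      omega
    have e1 : (i : ℤ) + ((w - i - u : ℕ) : ℤ) - 1 = (w : ℤ) - u - 1 := by omega
    have e2 : (j : ℤ) + ((l - j - v : ℕ) : ℤ) - 1 = (l : ℤ) - v - 1 := by omega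
    unfold inpl at he2
    simp only [e1, e2] at he2
    simp only [Finset.mem_union, Finset.mem_filter]
    tauto
  have hcard := Finset.card_le_card hsub
  have h1 := Finset.card_union_le ((C.filter (fun e => (hd e).1 = (i : ℤ) ∧ (tl e).1 = (i : ℤ)))
        ∪ (C.filter (fun e => (hd e).1 = (w : ℤ) - u - 1 ∧ (tl e).1 = (w : ℤ) - u - 1))
        ∪ (C.filter (fun e => (hd e).2.1 = (j : ℤ) ∧ (tl e).2.1 = (j : ℤ))))
        (C.filter (fun e => (hd e).2.1 = (l : ℤ) - v - 1 ∧ (tl e).2.1 = (l : ℤ) - v - 1))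
  have h2 := Finset.card_union_le ((C.filter (fun e => (hd e).1 = (i : ℤ) ∧ (tl e).1 = (i : ℤ)))
        ∪ (C.filter (fun e => (hd e).1 = (w : ℤ) - u - 1 ∧ (tl e).1 = (w : ℤ) - u - 1)))
        (C.filter (fun e => (hd e).2.1 = (j : ℤ) ∧ (tl e).2.1 = (j : ℤ)))
  have h3 := Finset.card_union_le (C.filter (fun e => (hd e).1 = (i : ℤ) ∧ (tl e).1 = (i : ℤ)))
        (C.filter (fun e => (hd e).1 = (w : ℤ) - u - 1 ∧ (tl e).1 = (w : ℤ) - u - 1))
  have htot : (bcuts ⟨i, j, w - i - u, l - j - v⟩ 0 (H : ℤ) S).card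
      ≤ (C.filter (fun e => (hd e).1 = (i : ℤ) ∧ (tl e).1 = (i : ℤ))).card
        + (C.filter (fun e => (hd e).1 = (w : ℤ) - u - 1 ∧ (tl e).1 = (w : ℤ) - u - 1)).card
        + (C.filter (fun e => (hd e).2.1 = (j : ℤ) ∧ (tl e).2.1 = (j : ℤ))).card
        + (C.filter (fun e => (hd e).2.1 = (l : ℤ) - v - 1 ∧ (tl e).2.1 = (l : ℤ) - v - 1)).card := by
    omega
  calc (bcuts ⟨i, j, w - i - u, l - j - v⟩ 0 (H : ℤ) S).card * s
      ≤ ((C.filter (fun e => (hd e).1 = (i : ℤ) ∧ (tl e).1 = (i : ℤ))).card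
        + (C.filter (fun e => (hd e).1 = (w : ℤ) - u - 1 ∧ (tl e).1 = (w : ℤ) - u - 1)).card
        + (C.filter (fun e => (hd e).2.1 = (j : ℤ) ∧ (tl e).2.1 = (j : ℤ))).card
        + (C.filter (fun e => (hd e).2.1 = (l : ℤ) - v - 1
            ∧ (tl e).2.1 = (l : ℤ) - v - 1)).card) * s := Nat.mul_le_mul_right _ htot
    _ ≤ 4 * C.card := by
        rw [add_mul, add_mul, add_mul]
        omega

end Pool.SC
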